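import Pool.Agent.W990.EB.Stm

/-!
# Project EB: symmetrisation
-/

set_option autoImplicit false
open Finset

namespace Pool.Agent.W125.EB

open Pool.Agent.W990.EB

theorem sum_ad (S : Finset ℕ) (F : ℕ → ℕ → ℕ → ℕ → ℝ) :
    ∑ a ∈ S, ∑ b ∈ S, ∑ c ∈ S, ∑ d ∈ S, F d b c a =
      ∑ a ∈ S, ∑ b ∈ S, ∑ c ∈ S, ∑ d ∈ S, F a b c d := by
  have h1 : ∑ a ∈ S, ∑ b ∈ S, ∑ c ∈ S, ∑ d ∈ S, F d b c a =
      ∑ a ∈ S, ∑ b ∈ S, ∑ d ∈ S, ∑ c ∈ S, F d b c a :=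
    Finset.sum_congr rfl fun a _ => Finset.sum_congr rfl fun b _ => Finset.sum_comm
  have h2 : ∑ a ∈ S, ∑ b ∈ S, ∑ d ∈ S, ∑ c ∈ S, F d b c a =
      ∑ a ∈ S, ∑ d ∈ S, ∑ b ∈ S, ∑ c ∈ S, F d b c a :=
    Finset.sum_congr rfl fun a _ => Finset.sum_comm
  have h3 : ∑ a ∈ S, ∑ d ∈ S, ∑ b ∈ S, ∑ c ∈ S, F d b c a =
      ∑ d ∈ S, ∑ a ∈ S, ∑ b ∈ S, ∑ c ∈ S, F d b c a := Finset.sum_comm
  have h4 : ∑ d ∈ S, ∑ a ∈ S, ∑ b ∈ S, ∑ c ∈ S, F d b c a =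
      ∑ d ∈ S, ∑ b ∈ S, ∑ a ∈ S, ∑ c ∈ S, F d b c a :=
    Finset.sum_congr rfl fun d _ => Finset.sum_comm
  have h5 : ∑ d ∈ S, ∑ b ∈ S, ∑ a ∈ S, ∑ c ∈ S, F d b c a =
      ∑ d ∈ S, ∑ b ∈ S, ∑ c ∈ S, ∑ a ∈ S, F d b c a :=
    Finset.sum_congr rfl fun d _ => Finset.sum_congr rfl fun b _ => Finset.sum_comm
  rw [h1, h2, h3, h4, h5]

theorem sum_bc (S : Finset ℕ) (F : ℕ → ℕ → ℕ → ℕ → ℝ) :
    ∑ a ∈ S, ∑ b ∈ S, ∑ c ∈ S, ∑ d ∈ S, F a c b d =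
      ∑ a ∈ S, ∑ b ∈ S, ∑ c ∈ S, ∑ d ∈ S, F a b c d :=
  Finset.sum_congr rfl fun _ _ => Finset.sum_comm

theorem J_ad (K : ℕ) (S : Finset ℕ) (P : ℝ → ℝ → ℝ → ℝ → ℝ) (t : ℝ) :
    J K S (fun a b c d => P d b c a) t = J K S P t := by
  unfold J
  rw [← sum_ad S (fun a b c d => w K ((a : ℤ) + d - b - c) *
    (P (t * a) (t * b) (t * c) (t * d) * Real.exp (-(t * (a + b + c + d)))))]
  refine Finset.sum_congr rfl fun a _ => Finset.sum_congr rfl fun b _ =>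
    Finset.sum_congr rfl fun c _ => Finset.sum_congr rfl fun d _ => ?_
  have e1 : (a : ℤ) + d - b - c = (d : ℤ) + a - b - c := by ring
  have e2 : (a : ℝ) + b + c + d = (d : ℝ) + b + c + a := by ring
  simp only [e1, e2]

theorem J_bc (K : ℕ) (S : Finset ℕ) (P : ℝ → ℝ → ℝ → ℝ → ℝ) (t : ℝ) :
    J K S (fun a b c d => P a c b d) t = J K S P t := by
  unfold J
  rw [← sum_bc S (fun a b c d => w K ((a : ℤ) + d - b - c) *
    (P (t * a) (t * b) (t * c) (t * d) * Real.exp (-(t * (a + b + c + d)))))]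
  refine Finset.sum_congr rfl fun a _ => Finset.sum_congr rfl fun b _ =>
    Finset.sum_congr rfl fun c _ => Finset.sum_congr rfl fun d _ => ?_
  have e1 : (a : ℤ) + d - b - c = (a : ℤ) + d - c - b := by ring
  have e2 : (a : ℝ) + b + c + d = (a : ℝ) + c + b + d := by ring
  simp only [e1, e2]

theorem J_adbc (K : ℕ) (S : Finset ℕ) (P : ℝ → ℝ → ℝ → ℝ → ℝ) (t : ℝ) :
    J K S (fun a b c d => P d c b a) t = J K S P t := by
  have h1 := J_ad K S (fun a b c d => P a c b d) t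
  have h2 := J_bc K S P t
  exact h1.trans h2

theorem swap : S_SWAP := by
  intro K S P t
  have h0 : J K S (sym P) t = (J K S P t + J K S (fun a b c d => P d b c a) t +
      J K S (fun a b c d => P a c b d) t + J K S (fun a b c d => P d c b a) t) / 4 := by
    unfold J sym
    simp only [← Finset.sum_add_distrib, Finset.sum_div]
    refine Finset.sum_congr rfl fun a _ => Finset.sum_congr rfl fun b _ =>
      Finset.sum_congr rfl fun c _ => Finset.sum_congr rfl fun d _ => ?_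
    ring
  rw [h0, J_adbc K S P t, J_ad K S P t, J_bc K S P t]
  ring

end Pool.Agent.W125.EB
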